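import Pool.Agent.MP_3c2488_lc.OneVar

namespace Pool.Agent.Results.MP_3c2488_lc.OneVariable

open Pool.Agent.MP_3c2488_lc

/-- For a formula `A` in the single variable `p`, the structural completion of `S_A` is
hereditarily structurally complete iff `A` is a theorem of IPC or `S_A` proves
`¬¬p ∨ (¬¬p → p)`. -/
theorem result (A : Fm) (hA : A.subst (fun _ => Fm.var 0) = A) :
    HereditarilySC (completion (Der A)) ↔
      Der (Fm.imp Fm.bot Fm.bot) ∅ A ∨
      Der A ∅ (Fm.or (Fm.imp (Fm.imp (Fm.var 0) Fm.bot) Fm.bot)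
        (Fm.imp (Fm.imp (Fm.imp (Fm.var 0) Fm.bot) Fm.bot) (Fm.var 0))) :=
  One.classify hA

end Pool.Agent.Results.MP_3c2488_lc.OneVariable
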