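import Pool.Agent.Mg.F3c2488p.G466163

namespace Pool.Agent.Results.MP_3c2488_lc.Undecidable

open Pool.Agent.MP_3c2488_lc

/-- No algorithm decides, given (the Gödel number of) a formula `A`, whether the structural
completion of `S_A` is hereditarily structurally complete. -/
theorem result : ¬ ∃ f : ℕ →. Bool, Partrec f ∧ ∀ A : Fm, ∃ b ∈ f A.code,
    (b = true ↔ HereditarilySC (completion (Der A))) :=
  undecidable

end Pool.Agent.Results.MP_3c2488_lc.Undecidable
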